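import Pool.Agent.GEN.StmtsU

/-!
# Row POW of squad GEN, block U: derivatives of powers as symbols
-/

set_option autoImplicit false

namespace Pool.Agent.GEN.H31

open MvPolynomial Pool.Agent.GEN

variable {σ A : Type} [CommRing A]

/-- the function `g` of the parameter acts by multiplication and is given by a symbol without
derivatives -/
def Good (g : A → MvPolynomial σ A) : Prop :=
  ∃ q : Sm σ A, (∀ m' ∈ q.support, dp m' = 0) ∧
    ∀ (l : A) (w : MvPolynomial σ A), act l w q = g l * w

theorem inl_inj : Function.Injective (fun i : σ => (some (Sum.inl i) : SY σ)) :=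
  fun _ _ h => Sum.inl_injective (Option.some_injective _ h)

theorem dE_zero (w : MvPolynomial σ A) : dE (0 : σ →₀ ℕ) w = w := by
  unfold dE dWordR
  simp

theorem good_mono (k : ℕ) (α : σ →₀ ℕ) (c : A) :
    Good (fun l : A => C (l ^ k) * monomial α c) := by
  classical
  set M : SY σ →₀ ℕ := α.mapDomain (fun i => (some (Sum.inl i) : SY σ)) + Finsupp.single none k
    with hM
  have h1 : M none = k := by
    rw [hM, Finsupp.add_apply, Finsupp.mapDomain_notin_range _ _ (by simp), Finsupp.single_eq_same,
      zero_add]
  have h2 : xp M = α := by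
    ext i
    rw [xp_apply, hM, Finsupp.add_apply,
      Finsupp.mapDomain_apply (f := fun i : σ => (some (Sum.inl i) : SY σ)) inl_inj α i,
      Finsupp.single_apply]
    simp
  have h3 : dp M = 0 := by
    ext i
    rw [dp_apply, hM, Finsupp.add_apply, Finsupp.mapDomain_notin_range _ _ (by simp),
      Finsupp.single_apply]
    simp
  refine ⟨monomial M c, ?_, ?_⟩
  · intro m' hm
    have h4 := MvPolynomial.support_monomial_subset hm
    rw [Finset.mem_singleton] at h4
    rw [h4, h3]
  · intro l w
    rw [act_monomial, h1, h2, h3, dE_zero]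
    have h5 : (monomial α c : MvPolynomial σ A) = C c * monomial α 1 := by
      rw [MvPolynomial.C_mul_monomial, mul_one]
    simp only [h5]
    ring

theorem good_add {g g' : A → MvPolynomial σ A} (h : Good g) (h' : Good g') :
    Good (fun l => g l + g' l) := by
  classical
  obtain ⟨q, hq, hq'⟩ := h
  obtain ⟨r, hr, hr'⟩ := h'
  refine ⟨q + r, ?_, ?_⟩
  · intro m' hm
    have h4 := MvPolynomial.support_add hm
    rw [Finset.mem_union] at h4
    rcases h4 with h4 | h4
    · exact hq _ h4
    · exact hr _ h4
  · intro l w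
    rw [map_add, hq', hr']
    ring

theorem good_coeff (k : ℕ) (a : MvPolynomial σ A) : Good (fun l : A => C (l ^ k) * a) := by
  refine MvPolynomial.induction_on' (P := fun a => Good (fun l : A => C (l ^ k) * a)) a ?_ ?_
  · intro u c
    exact good_mono k u c
  · intro p q hp hq
    have h := good_add hp hq
    simp only [mul_add]
    exact h

theorem good_poly (Q : Polynomial (MvPolynomial σ A)) :
    Good (fun l : A => Q.eval (C l)) := by
  refine Polynomial.induction_on' (motive := fun Q => Good (fun l : A => Q.eval (C l))) Q ?_ ?_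
  · intro p q hp hq
    have h := good_add hp hq
    simp only [Polynomial.eval_add]
    exact h
  · intro k a
    have h := good_coeff k a
    have h1 : (fun l : A => (Polynomial.monomial k a).eval (C l)) =
        fun l : A => C (l ^ k) * a := by
      funext l
      rw [Polynomial.eval_monomial, map_pow, mul_comm]
    rw [h1]
    exact h

theorem pd_poly (i : σ) (Q : Polynomial (MvPolynomial σ A)) :
    ∃ Q' : Polynomial (MvPolynomial σ A), ∀ l : A, Q'.eval (C l) = pderiv i (Q.eval (C l)) := by
  refine Polynomial.induction_on' (motive := fun Q => ∃ Q' : Polynomial (MvPolynomial σ A),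
    ∀ l : A, Q'.eval (C l) = pderiv i (Q.eval (C l))) Q ?_ ?_
  · rintro p q ⟨p', hp⟩ ⟨q', hq⟩
    refine ⟨p' + q', fun l => ?_⟩
    rw [Polynomial.eval_add, Polynomial.eval_add, map_add, hp, hq]
  · intro k a
    refine ⟨Polynomial.monomial k (pderiv i a), fun l => ?_⟩
    rw [Polynomial.eval_monomial, Polynomial.eval_monomial, Derivation.leibniz, ← map_pow,
      MvPolynomial.pderiv_C, smul_zero, zero_add, smul_eq_mul, mul_comm]

theorem word (F : MvPolynomial σ A) (v : List σ) :
    ∃ Q : Polynomial (MvPolynomial σ A), ∀ e : ℕ,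
      dWordR v (F ^ (e + v.length)) = Q.eval (C ((e + v.length : ℕ) : A)) * F ^ e := by
  induction v with
  | nil =>
    refine ⟨1, fun e => ?_⟩
    rw [Polynomial.eval_one, one_mul]
    rfl
  | cons i v ih =>
    obtain ⟨Q, hQ⟩ := ih
    obtain ⟨Q', hQ'⟩ := pd_poly i Q
    refine ⟨Polynomial.C F * Q' +
      (Polynomial.X - Polynomial.C ((v.length : ℕ) : MvPolynomial σ A)) *
        (Q * Polynomial.C (pderiv i F)), fun e => ?_⟩
    have h1 : e + (i :: v).length = (e + 1) + v.length := by
      rw [List.length_cons]
      ring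
    have h2 : dWordR (i :: v) (F ^ ((e + 1) + v.length)) =
        pderiv i (dWordR v (F ^ ((e + 1) + v.length))) := rfl
    rw [h1, h2, hQ (e + 1), Derivation.leibniz, Derivation.leibniz_pow, ← hQ']
    simp only [Polynomial.eval_add, Polynomial.eval_mul, Polynomial.eval_sub, Polynomial.eval_C,
      Polynomial.eval_X, smul_eq_mul, nsmul_eq_mul, Nat.add_sub_cancel, map_natCast,
      Polynomial.eval_natCast]
    push_cast
    ring

theorem deg_dp (m : SY σ →₀ ℕ) : (dp m).degree ≤ m.degree := by
  classical
  have h1 : (dp m).degree = ∑ j ∈ (dp m).support.image (fun i => (some (Sum.inr i) : SY σ)), m j := by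
    rw [Finset.sum_image]
    · rfl
    · intro a _ b _ h
      exact Sum.inr_injective (Option.some_injective _ h)
  have h2 : m.degree = ∑ j ∈ m.support, m j := rfl
  rw [h1, h2]
  refine Finset.sum_le_sum_of_subset ?_
  intro j hj
  obtain ⟨i, hi, rfl⟩ := Finset.mem_image.mp hj
  rw [Finsupp.mem_support_iff] at hi ⊢
  exact hi

theorem pow : PowStmt := by
  intro σ A _ F m d hd
  obtain ⟨Q, hQ⟩ := word F (Finsupp.toMultiset (dp m)).toList
  set L : ℕ := (Finsupp.toMultiset (dp m)).toList.length with hL
  have hLd : L ≤ d := by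
    rw [hL, Multiset.length_toList, Finsupp.card_toMultiset]
    exact le_trans (deg_dp m) hd
  obtain ⟨q, hq, hq'⟩ := good_poly (Polynomial.X ^ (m none) *
    (Polynomial.C (monomial (xp m) (1 : A) * F ^ (d - L)) * Q))
  refine ⟨q, hq, fun n hn => ?_⟩
  rw [hq', act_monomial]
  have h1 : dE (dp m) (F ^ n) = Q.eval (C (n : A)) * F ^ (n - L) := by
    have h2 := hQ (n - L)
    have h3 : n - L + L = n := by omega
    rw [h3] at h2
    exact h2
  have h4 : pw F (-d) n = F ^ (n - d) := by
    unfold pw
    congr 1
    omega
  have h5 : F ^ (n - L) = F ^ (d - L) * F ^ (n - d) := by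
    rw [← pow_add]
    congr 1
    omega
  rw [h1, h4, h5]
  simp only [Polynomial.eval_mul, Polynomial.eval_pow, Polynomial.eval_X, Polynomial.eval_C,
    map_pow, map_one]
  ring

end Pool.Agent.GEN.H31
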